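import Pool.Agent.Lib_MP_7c0803_co.MainG

/-!
# Almost all cubic bipartite graphs have at least two Kempe classes of 3-edge-colourings

The labelled cubic bipartite graphs with parts of size `n` are the graphs `G` on `Fin n ⊕ Fin n`
with `IsCB G`; `Kc G.lineGraph 3` is the number of Kempe classes of proper 3-edge-colourings.
-/

open SimpleGraph Pool.Agent.MP_7c0803

namespace Pool.Agent.Results.MP_7c0803_co.AlmostAll

/-- `G` has at least two Kempe classes of 3-edge-colourings (proper 3-colourings of the line graph),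
and every Kempe class contains at most `(1 + ε) / 2` of all the 3-edge-colourings. -/
def Balanced {V : Type*} (ε : ℝ) (G : SimpleGraph V) : Prop :=
  2 ≤ Kc G.lineGraph 3 ∧ ∀ c : G.lineGraph.Coloring (Fin 3),
    (Nat.card {c' : G.lineGraph.Coloring (Fin 3) //
      Quot.mk (KempeStep G.lineGraph 3) c' = Quot.mk (KempeStep G.lineGraph 3) c} : ℝ) ≤
        (1 + ε) / 2 * (Nat.card (G.lineGraph.Coloring (Fin 3)) : ℝ)

theorem bigClass_of_not_balanced {n : ℕ} (hn : 1 ≤ n) {ε : ℝ} (hε : ε < 1)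
    {G : SimpleGraph (Fin n ⊕ Fin n)} (hG : IsCB G) (h : ¬ Balanced ε G) : BigClass ε G := by
  by_contra hB
  apply h
  have hle : ∀ c : G.lineGraph.Coloring (Fin 3),
      (Nat.card {c' : G.lineGraph.Coloring (Fin 3) //
        Quot.mk (KempeStep G.lineGraph 3) c' = Quot.mk (KempeStep G.lineGraph 3) c} : ℝ) ≤
          (1 + ε) / 2 * (Nat.card (G.lineGraph.Coloring (Fin 3)) : ℝ) := by
    intro c
    by_contra hc
    exact hB ⟨c, not_le.mp hc⟩
  refine ⟨?_, hle⟩
  have hfin : Finite (G.lineGraph.Coloring (Fin 3)) :=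
    Finite.of_injective (fun c : G.lineGraph.Coloring (Fin 3) => (c : _ → Fin 3))
      DFunLike.coe_injective
  obtain ⟨m, rfl⟩ : ∃ m, n = m + 1 := ⟨n - 1, by omega⟩
  have hne : Nonempty (G.lineGraph.Coloring (Fin 3)) := by
    obtain ⟨e, _⟩ := kempe_equiv hG
    have h1 := card_Col_ge (isCub_edgesOf hG)
    have h2 : 0 < (Col (edgesOf G)).card := by
      by_contra h3
      have h4 : (Col (edgesOf G)).card = 0 := by omega
      rw [h4, mul_zero] at h1
      have : 0 < 3 * 4 ^ m := by positivity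
      omega
    obtain ⟨p, hp⟩ := Finset.card_pos.mp h2
    exact ⟨e.symm ⟨p, hp⟩⟩
  by_contra hK
  have hq : Nonempty (Quot (KempeStep G.lineGraph 3)) := hne.map (Quot.mk _)
  have hqf : Finite (Quot (KempeStep G.lineGraph 3)) := Quot.finite _
  have h1 : Kc G.lineGraph 3 = 1 := by
    have : 0 < Kc G.lineGraph 3 := Nat.card_pos
    omega
  have hsub := (Nat.card_eq_one_iff_unique.mp h1).1
  obtain ⟨c⟩ := hne
  have h2 : Nat.card {c' : G.lineGraph.Coloring (Fin 3) //
      Quot.mk (KempeStep G.lineGraph 3) c' = Quot.mk (KempeStep G.lineGraph 3) c} =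
      Nat.card (G.lineGraph.Coloring (Fin 3)) :=
    Nat.card_congr (Equiv.subtypeUnivEquiv fun c' => Subsingleton.elim _ _)
  have h3 := hle c
  rw [h2] at h3
  have h4 : (0 : ℝ) < (Nat.card (G.lineGraph.Coloring (Fin 3)) : ℝ) := by
    have : Nonempty (G.lineGraph.Coloring (Fin 3)) := ⟨c⟩
    exact_mod_cast Nat.card_pos (α := G.lineGraph.Coloring (Fin 3))
  nlinarith

/-- For every `g`, all but an exponentially small fraction of the labelled cubic bipartite graphs of
girth at least `g` have at least two Kempe classes of 3-edge-colourings, each of which contains at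
most `(1 + ε) / 2` of all the 3-edge-colourings.  (For `g = 0` this concerns all labelled
cubic bipartite graphs.) -/
theorem result (g : ℕ) : ∃ (C : ℝ) (k n₀ : ℕ),
    (∀ n, n₀ ≤ n →
      0 < Nat.card {G : SimpleGraph (Fin n ⊕ Fin n) // IsCB G ∧ (g : ℕ∞) ≤ G.egirth}) ∧
    ∀ n : ℕ, 1 ≤ n → ∀ ε : ℝ, 0 < ε → ε < 1 →
      (Nat.card {G : SimpleGraph (Fin n ⊕ Fin n) //
          (IsCB G ∧ (g : ℕ∞) ≤ G.egirth) ∧ ¬ Balanced ε G} : ℝ) ≤
        C * (n : ℝ) ^ k * (3 / 4 : ℝ) ^ n / ε ^ 2 *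
          (Nat.card {G : SimpleGraph (Fin n ⊕ Fin n) // IsCB G ∧ (g : ℕ∞) ≤ G.egirth} : ℝ) := by
  obtain ⟨C, k, hC, h, n₀, h0⟩ := main_girth g
  refine ⟨C, k, n₀, h0, fun n hn ε hε hε1 => ?_⟩
  refine le_trans ?_ (h n hn ε hε)
  have : Nat.card {G : SimpleGraph (Fin n ⊕ Fin n) //
      (IsCB G ∧ (g : ℕ∞) ≤ G.egirth) ∧ ¬ Balanced ε G} ≤
      Nat.card {G : SimpleGraph (Fin n ⊕ Fin n) //
        (IsCB G ∧ (g : ℕ∞) ≤ G.egirth) ∧ BigClass ε G} :=
    Nat.card_le_card_of_injective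
      (fun G => (⟨G.1, G.2.1, bigClass_of_not_balanced hn hε1 G.2.1.1 G.2.2⟩ :
        {G : SimpleGraph (Fin n ⊕ Fin n) //
          (IsCB G ∧ (g : ℕ∞) ≤ G.egirth) ∧ BigClass ε G}))
      (fun G G' hGG => Subtype.ext (congrArg (fun z : {G : SimpleGraph (Fin n ⊕ Fin n) //
          (IsCB G ∧ (g : ℕ∞) ≤ G.egirth) ∧ BigClass ε G} => z.1) hGG))
  exact_mod_cast this

end Pool.Agent.Results.MP_7c0803_co.AlmostAll
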