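import Pool.Agent.Lib_MP_7c0803_pp.TopD

/-!
# Kempe equivalence of 3-edge-colourings of cubic bipartite graphs: parity and topological minors

For two proper 3-edge-colourings `c, c'` let `flips c c'` be the set of vertices at which exactly one edge has the same colour in
both.  `EvenFlips G`: this number is even for all `c, c'`.  It is necessary for `Kc(L(G), 3) = 1`.  If it holds and `Kc(L(G), 3) ≠ 1`,
then `G` contains a subdivision of a cubic bipartite graph `H` of girth at least six, without edge cuts of size at most three except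
the trivial ones, for which it holds and `Kc(L(H), 3) ≠ 1`.

`Kc` is defined in `FourCycle.lean`, `flips` in `Graph.lean`, `EvenFlips` in `Final3.lean`, `ContainsSubdivision` in `TopDefs.lean`,
`FewCuts` in `TopD.lean`.
-/

set_option autoImplicit false

namespace Pool.Agent.Results.MP_7c0803_co.ParityCriterion

open SimpleGraph Pool.Agent.PP

universe u

/-- `H` is cubic and bipartite -/
def CubicBip {W : Type u} (H : SimpleGraph W) : Prop := (∀ w, (H.neighborSet w).ncard = 3) ∧ H.Colorable 2

/-- `H` has no cycle of length four -/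
def NoC4 {W : Type u} (H : SimpleGraph W) : Prop :=
  ¬ ∃ a b c d, a ≠ c ∧ b ≠ d ∧ H.Adj a b ∧ H.Adj b c ∧ H.Adj c d ∧ H.Adj d a

theorem result {V : Type u} [Finite V] (G : SimpleGraph V) (hG : CubicBip G) :
    (Kc G.lineGraph 3 = 1 → EvenFlips G) ∧
    (EvenFlips G → Kc G.lineGraph 3 ≠ 1 →
      ∃ (W : Type u) (_ : Finite W) (H : SimpleGraph W), CubicBip H ∧ NoC4 H ∧ FewCuts H ∧
        EvenFlips H ∧ Kc H.lineGraph 3 ≠ 1 ∧ ContainsSubdivision H G) := by
  obtain ⟨hcub, hbip⟩ := hG
  obtain ⟨κ⟩ := col_of_colorable hbip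
  refine ⟨?_, ?_⟩
  · intro h
    obtain ⟨M⟩ := emb_exists (G := G) hcub
    exact fun c c' => kc_necessary M κ hcub h c c'
  · intro hE hK
    obtain ⟨W, hW, H, h1, h2, h3, h4, h5, h6, h7⟩ := kc_topminor2 κ hcub hE hK
    exact ⟨W, hW, H, ⟨h1, h2⟩, h3, h4, h5, h6, h7⟩

end Pool.Agent.Results.MP_7c0803_co.ParityCriterion
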