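import Pool.Agent.Lib_MP_7c0803_x.Final
import Pool.Agent.Lib_MP_7c0803_x.HonEmb
import Pool.Agent.Lib_MP_7c0803_x.HonFacts2
import Pool.Agent.Lib_MP_7c0803_tor.KEmb

/-!
# Kempe equivalence of 3-edge-colourings of cubic bipartite graphs in the sphere, projective plane, torus and Klein bottle

For every connected cubic bipartite graph `G` embedded in a surface of Euler characteristic at least zero: `Kc(L(G), 3) = 1` if and only if all
3-edge-colourings have the same parity (`EvenFlips G`) and `G` does not contract onto one of three graphs, the Heawood graph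
`Hon (Lt (2, 1) (-7, 0))`, the graph `Hon (Lt (2, 1) (-10, 0))` with 20 vertices and the graph `kleinGraph` with 18 vertices.  For the graphs without
4-cycles there is the explicit list of the graphs with `Kc(L(G), 3) = 1` and of those with `EvenFlips G` and more than one class.

`ContractsOnto` is defined in `CDefs.lean` of `Lib_MP_7c0803_x`; `Hon L` is the hexagonal grid on the torus `(ℤ × ℤ) / L` (`Lib_MP_7c0803_hon/R.lean`), `Lt u v`
the sublattice of `ℤ × ℤ` generated by `u` and `v` (`Lib_MP_7c0803_tor/Defs.lean`); `BGr f` is the graph given by three bijections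
(`Lib_MP_7c0803_kb/Ks.lean`), `kf`, `kleinGraph` are in `Lib_MP_7c0803_tor/KDefs.lean`; `Kc` is defined in `FourCycle.lean`, `Emb` (rotation systems with faces)
and `flips` in `Graph.lean`, `EvenFlips` in `Final3.lean` of `Lib_MP_7c0803_pp`.
-/

set_option autoImplicit false

namespace Pool.Agent.Results.MP_7c0803_co.SurfaceCriterion

open SimpleGraph Pool.Agent.PP

universe u

/-- `H` is cubic and bipartite -/
def CubicBip {W : Type u} (H : SimpleGraph W) : Prop := (∀ w, (H.neighborSet w).ncard = 3) ∧ H.Colorable 2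

/-- `H` has no 4-cycle (a bipartite graph then has girth at least six) -/
def NoFourCycle {W : Type u} (H : SimpleGraph W) : Prop :=
  ∀ a b c d, H.Adj a b → H.Adj b c → H.Adj c d → H.Adj d a → a = c ∨ b = d

/-- `H` has an embedding (twisted edges allowed) with `|V| - |E| + |F| ≥ 0` (for connected `H`: in the sphere, projective plane, torus or Klein bottle) -/
def Nonneg {W : Type u} (H : SimpleGraph W) : Prop := ∃ M : Emb H, Nat.card H.edgeSet ≤ Nat.card W + Nat.card M.Face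

/-- the Heawood graph -/
abbrev H14 := Hon (Lt (2, 1) (-7, 0))

/-- the exceptional graph with 20 vertices -/
abbrev H20 := Hon (Lt (2, 1) (-10, 0))

theorem result :
    (∀ {V : Type u} [Finite V] (G : SimpleGraph V), G.Connected → CubicBip G → Nonneg G →
      (Kc G.lineGraph 3 = 1 ↔
        EvenFlips G ∧ ¬ ContractsOnto G H14 ∧ ¬ ContractsOnto G H20 ∧ ¬ ContractsOnto G kleinGraph) ∧
      (NoFourCycle G →
        (Kc G.lineGraph 3 = 1 ↔ (∃ (s : ℤ) (k : ℕ), 2 ≤ k ∧ Nonempty (G ≃g Hon (Lt (3, 0) (s, 2 * k)))) ∨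
          Nonempty (G ≃g Hon (Lt (2, 2) (0, 8))) ∨ ∃ k : ℕ, 2 ≤ k ∧ Nonempty (G ≃g BGr (kf (2 * k) 2 0))) ∧
        ((EvenFlips G ∧ Kc G.lineGraph 3 ≠ 1) ↔
          Nonempty (G ≃g H14) ∨ Nonempty (G ≃g H20) ∨ Nonempty (G ≃g kleinGraph)))) ∧
    (H14.Connected ∧ CubicBip H14 ∧ NoFourCycle H14 ∧ Nonneg H14 ∧ EvenFlips H14 ∧ Kc H14.lineGraph 3 ≠ 1) ∧
    (H20.Connected ∧ CubicBip H20 ∧ NoFourCycle H20 ∧ Nonneg H20 ∧ EvenFlips H20 ∧ Kc H20.lineGraph 3 ≠ 1) ∧
    (kleinGraph.Connected ∧ CubicBip kleinGraph ∧ NoFourCycle kleinGraph ∧ Nonneg kleinGraph ∧ EvenFlips kleinGraph ∧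
      Kc kleinGraph.lineGraph 3 ≠ 1) := by
  have key : ∀ {W : Type} [Finite W] (H : SimpleGraph W), CubFacts H → Nonneg H →
      (Nonempty (H ≃g H14) ∨ Nonempty (H ≃g H20) ∨ Nonempty (H ≃g kleinGraph)) →
      H.Connected ∧ CubicBip H ∧ NoFourCycle H ∧ Nonneg H ∧ EvenFlips H ∧ Kc H.lineGraph 3 ≠ 1 := by
    intro W _ H hf hχ hi
    obtain ⟨κ⟩ := col_of_colorable hf.bip
    obtain ⟨M, hM⟩ := hχ
    have h := ((nonneg_girth6 M κ hf.cub hf.con hM hf.four).2).2 hi
    exact ⟨hf.con, ⟨hf.cub, hf.bip⟩, hf.four, ⟨M, hM⟩, h.1, h.2⟩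
  obtain ⟨f14, g1, g2, g3⟩ := finite14
  obtain ⟨f20, k1, k2, k3⟩ := finite20
  obtain ⟨M14, -, hM14⟩ := hon_emb _ f14 g1 g2 g3
  obtain ⟨M20, -, hM20⟩ := hon_emb _ f20 k1 k2 k3
  refine ⟨?_, key _ facts14 ⟨M14, hM14⟩ (Or.inl ⟨Iso.refl⟩), key _ facts20 ⟨M20, hM20⟩ (Or.inr (Or.inl ⟨Iso.refl⟩)),
    key _ facts18 klein_embedded (Or.inr (Or.inr ⟨Iso.refl⟩))⟩
  intro V _ G hG hcb hχ
  obtain ⟨hcub, hbip⟩ := hcb
  obtain ⟨κ⟩ := col_of_colorable hbip
  obtain ⟨M, hM⟩ := hχ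
  exact ⟨nonneg_all M κ hcub hG hM, fun h4 => nonneg_girth6 M κ hcub hG hM h4⟩

end Pool.Agent.Results.MP_7c0803_co.SurfaceCriterion
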